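import Mathlib

/-!
Population Lotto game: the aggregate population strategy is the same in any two Nash equilibria.

Players form an arbitrary probability space `(P, π)`; player `i` has budget `b i` and plays the
probability measure `f i` on `[0,∞)` with mean exactly `b i`.  The aggregate population strategy is
the mixture `π.bind f`, i.e. the measure `A ↦ ∫ f i (A) dπ(i)`.

Proof idea.  (1) The best-reply value against an equilibrium aggregate is concave and monotone; it
agrees with the payoff function at almost every point played, which forces the aggregate to have no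
atoms and its distribution function `G` to be concave, with equilibrium payoff `G (b i)`.
(2) The game is symmetric with constant sum, so equilibrium strategies of one equilibrium are
best replies to the aggregate of the other one.  (3) At the first maximum point `x₀` of the
difference `G₁ - G₂` no equilibrium strategy of either equilibrium can charge both sides of `x₀`
(equality in Jensen's inequality would make the difference affine and hence constant across
`x₀`), so both `G₁ x₀` and `G₂ x₀` equal the share of players with budget below `x₀`.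
-/

open MeasureTheory ProbabilityTheory Set Filter Topology
open scoped ENNReal

namespace Pool.Agent.Results.MP_ed16aa_pr.AggregateUnique

/-- `μ` is an admissible strategy for a player of budget `b`: a probability distribution on
`[0,∞)` whose mean is exactly `b`. -/
structure IsStrategy (b : ℝ) (μ : Measure ℝ) : Prop where
  /-- total mass one -/
  prob : IsProbabilityMeasure μ
  /-- no mass on the negative half-line -/
  nonneg : μ (Iio 0) = 0
  /-- the mean exists -/
  integrable : Integrable (fun x : ℝ => x) μ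
  /-- the mean is `b` -/
  mean : ∫ x, x ∂μ = b

/-- `Pr(X > Y) + (1/2) Pr(X = Y)` for independent `X` with law `μ` and `Y` with law `ν`. -/
noncomputable def payoff (μ ν : Measure ℝ) : ℝ :=
  (μ.prod ν).real {p | p.2 < p.1} + (1 / 2) * (μ.prod ν).real {p | p.1 = p.2}

/-- Nash equilibrium of the population game with player space `(P, π)`, budgets `b` and
strategies `f`: almost every player plays an admissible strategy, and almost every player's
strategy maximizes the payoff against the aggregate population strategy `π.bind f` (held fixed)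
among all distributions on `[0,∞)` whose mean is the player's budget. -/
structure IsNash {P : Type*} [MeasurableSpace P] (π : Measure P) (b : P → ℝ)
    (f : P → Measure ℝ) : Prop where
  /-- almost every player plays an admissible strategy -/
  feasible : ∀ᵐ i ∂π, IsStrategy (b i) (f i)
  /-- almost every player plays a best reply to the aggregate population strategy -/
  optimal : ∀ᵐ i ∂π, ∀ μ : Measure ℝ, IsStrategy (b i) μ →
    payoff μ (π.bind f) ≤ payoff (f i) (π.bind f)

/-- payoff of the pure action `x` against `g` -/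
noncomputable def Gs (g : Measure ℝ) (x : ℝ) : ℝ := g.real (Iio x) + (1 / 2) * g.real {x}

section basic
variable (g : Measure ℝ) [IsProbabilityMeasure g]

lemma Iic_eq (x : ℝ) : g.real (Iic x) = g.real (Iio x) + g.real {x} := by
  rw [← Iio_union_right, measureReal_union (by simp) (measurableSet_singleton x)]

lemma Gs_nonneg (x : ℝ) : 0 ≤ Gs g x := by
  unfold Gs; positivity

lemma Gs_le_Iic (x : ℝ) : Gs g x ≤ g.real (Iic x) := by
  rw [Iic_eq]; unfold Gs
  have : 0 ≤ g.real {x} := measureReal_nonneg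
  linarith

lemma Iic_le_one (x : ℝ) : g.real (Iic x) ≤ 1 := measureReal_le_one

lemma Gs_le_one (x : ℝ) : Gs g x ≤ 1 := (Gs_le_Iic g x).trans (Iic_le_one g x)

lemma Iic_le_Gs {x y : ℝ} (h : x < y) : g.real (Iic x) ≤ Gs g y := by
  unfold Gs
  have h1 : g.real (Iic x) ≤ g.real (Iio y) := measureReal_mono (fun z hz => lt_of_le_of_lt hz h)
  have : 0 ≤ g.real {y} := measureReal_nonneg
  linarith

lemma Gs_mono : Monotone (Gs g) := by
  intro x y h
  rcases h.eq_or_lt with h | h
  · rw [h]
  · exact (Gs_le_Iic g x).trans (Iic_le_Gs g h)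

lemma Gs_meas : Measurable (Gs g) := (Gs_mono g).measurable

lemma Gs_integrable (μ : Measure ℝ) [IsFiniteMeasure μ] : Integrable (Gs g) μ := by
  refine Integrable.of_bound (Gs_meas g).aestronglyMeasurable 1 (ae_of_all _ fun x => ?_)
  rw [Real.norm_eq_abs, abs_of_nonneg (Gs_nonneg g x)]
  exact Gs_le_one g x

lemma payoff_eq (μ : Measure ℝ) [IsProbabilityMeasure μ] : payoff μ g = ∫ x, Gs g x ∂μ := by
  have m1 : MeasurableSet {p : ℝ × ℝ | p.2 < p.1} := measurableSet_lt measurable_snd measurable_fst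
  have m2 : MeasurableSet {p : ℝ × ℝ | p.1 = p.2} := measurableSet_eq_fun measurable_fst measurable_snd
  have e1 : (μ.prod g).real {p | p.2 < p.1} = ∫ x, g.real (Iio x) ∂μ := by
    rw [measureReal_def, Measure.prod_apply m1]
    rw [← integral_toReal]
    · rfl
    · exact (measurable_measure_prodMk_left m1).aemeasurable
    · exact ae_of_all _ fun x => measure_lt_top _ _
  have e2 : (μ.prod g).real {p | p.1 = p.2} = ∫ x, g.real {x} ∂μ := by
    rw [measureReal_def, Measure.prod_apply m2]
    rw [← integral_toReal]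
    · refine integral_congr_ae (ae_of_all _ fun x => ?_)
      have : (Prod.mk x ⁻¹' {p : ℝ × ℝ | p.1 = p.2}) = {x} := by
        ext y; simp [eq_comm]
      simp only [this]; rfl
    · exact (measurable_measure_prodMk_left m2).aemeasurable
    · exact ae_of_all _ fun x => measure_lt_top _ _
  have i1 : Integrable (fun x => g.real (Iio x)) μ := by
    refine Integrable.of_bound (Monotone.measurable ?_).aestronglyMeasurable 1
      (ae_of_all _ fun x => ?_)
    · intro x y h
      exact measureReal_mono (Iio_subset_Iio h)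
    · rw [Real.norm_eq_abs, abs_of_nonneg measureReal_nonneg]; exact measureReal_le_one
  have i2 : Integrable (fun x => g.real {x}) μ := by
    have : (fun x => g.real {x}) = fun x => 2 * (Gs g x - g.real (Iio x)) := by
      funext x; unfold Gs; ring
    rw [this]
    exact ((Gs_integrable g μ).sub i1).const_mul 2
  unfold payoff
  rw [e1, e2]
  unfold Gs
  rw [integral_add i1 (i2.const_mul _), integral_const_mul]

end basic

section value
variable (g : Measure ℝ) [IsProbabilityMeasure g]

/-- best-reply value -/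
noncomputable def val (b : ℝ) : ℝ := sSup {r | ∃ μ, IsStrategy b μ ∧ r = ∫ x, Gs g x ∂μ}

lemma isStrategy_dirac {b : ℝ} (hb : 0 ≤ b) : IsStrategy b (Measure.dirac b) where
  prob := inferInstance
  nonneg := by
    rw [Measure.dirac_apply' _ measurableSet_Iio]
    simp [hb]
  integrable := integrable_dirac (by simp)
  mean := by simp

lemma integral_Gs_le_one (μ : Measure ℝ) [IsProbabilityMeasure μ] : ∫ x, Gs g x ∂μ ≤ 1 := by
  calc ∫ x, Gs g x ∂μ ≤ ∫ _, (1 : ℝ) ∂μ :=
        integral_mono (Gs_integrable g μ) (integrable_const _) (fun x => Gs_le_one g x)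
    _ = 1 := by simp

lemma val_bdd (b : ℝ) : BddAbove {r | ∃ μ, IsStrategy b μ ∧ r = ∫ x, Gs g x ∂μ} := by
  refine ⟨1, ?_⟩
  rintro r ⟨μ, hμ, rfl⟩
  have := hμ.prob
  exact integral_Gs_le_one g μ

lemma le_val {b : ℝ} {μ : Measure ℝ} (hμ : IsStrategy b μ) : ∫ x, Gs g x ∂μ ≤ val g b :=
  le_csSup (val_bdd g b) ⟨μ, hμ, rfl⟩

lemma val_le {b c : ℝ} (hb : 0 ≤ b) (h : ∀ μ, IsStrategy b μ → ∫ x, Gs g x ∂μ ≤ c) :
    val g b ≤ c := by
  refine csSup_le ⟨_, Measure.dirac b, isStrategy_dirac hb, rfl⟩ ?_
  rintro r ⟨μ, hμ, rfl⟩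
  exact h μ hμ

lemma val_le_one {b : ℝ} (hb : 0 ≤ b) : val g b ≤ 1 :=
  val_le g hb fun μ hμ => by have := hμ.prob; exact integral_Gs_le_one g μ

lemma Gs_le_val {b : ℝ} (hb : 0 ≤ b) : Gs g b ≤ val g b := by
  have := le_val g (isStrategy_dirac hb)
  rwa [integral_dirac] at this

lemma isStrategy_translate {a b : ℝ} {μ : Measure ℝ} (hμ : IsStrategy a μ) (hab : a ≤ b) :
    IsStrategy b (μ.map (fun x => x + (b - a))) := by
  have hm : Measurable (fun x : ℝ => x + (b - a)) := measurable_id.add_const _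
  have := hμ.prob
  refine ⟨Measure.isProbabilityMeasure_map hm.aemeasurable, ?_, ?_, ?_⟩
  · rw [Measure.map_apply hm measurableSet_Iio]
    refine measure_mono_null ?_ hμ.nonneg
    intro x hx
    simp only [mem_preimage, mem_Iio] at hx ⊢
    linarith
  · rw [integrable_map_measure (by fun_prop) hm.aemeasurable]
    exact hμ.integrable.add (integrable_const _)
  · rw [integral_map hm.aemeasurable (by fun_prop)]
    rw [integral_add hμ.integrable (integrable_const _), hμ.mean]
    simp

lemma val_mono {a b : ℝ} (ha : 0 ≤ a) (hab : a ≤ b) : val g a ≤ val g b := by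
  refine val_le g ha fun μ hμ => ?_
  have := hμ.prob
  refine le_trans ?_ (le_val g (isStrategy_translate hμ hab))
  rw [integral_map (by fun_prop) (Gs_meas g).aestronglyMeasurable]
  refine integral_mono (Gs_integrable g μ) ?_ (fun x => Gs_mono g (by linarith))
  refine Integrable.of_bound ((Gs_meas g).comp (by fun_prop)).aestronglyMeasurable 1
    (ae_of_all _ fun x => ?_)
  rw [Real.norm_eq_abs, abs_of_nonneg (Gs_nonneg g _)]
  exact Gs_le_one g _

lemma isStrategy_mix {a b s t : ℝ} {μ ν : Measure ℝ} (hμ : IsStrategy a μ) (hν : IsStrategy b ν)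
    (hs : 0 ≤ s) (ht : 0 ≤ t) (hst : s + t = 1) :
    IsStrategy (s * a + t * b) (ENNReal.ofReal s • μ + ENNReal.ofReal t • ν) := by
  have := hμ.prob
  have := hν.prob
  refine ⟨⟨?_⟩, ?_, ?_, ?_⟩
  · simp [← ENNReal.ofReal_add hs ht, hst]
  · simp [hμ.nonneg, hν.nonneg]
  · exact (hμ.integrable.smul_measure ENNReal.ofReal_ne_top).add_measure
      (hν.integrable.smul_measure ENNReal.ofReal_ne_top)
  · rw [integral_add_measure (hμ.integrable.smul_measure ENNReal.ofReal_ne_top)
      (hν.integrable.smul_measure ENNReal.ofReal_ne_top), integral_smul_measure,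
      integral_smul_measure, hμ.mean, hν.mean, ENNReal.toReal_ofReal hs, ENNReal.toReal_ofReal ht]
    simp

lemma val_concave : ConcaveOn ℝ (Ici 0) (val g) := by
  refine ⟨convex_Ici 0, ?_⟩
  intro a ha b hb s t hs ht hst
  simp only [smul_eq_mul]
  have ha' : (0:ℝ) ≤ a := ha
  have hb' : (0:ℝ) ≤ b := hb
  -- s * val a + t * val b ≤ val (s a + t b)
  have key : ∀ μ, IsStrategy a μ → ∀ ν, IsStrategy b ν →
      s * ∫ x, Gs g x ∂μ + t * ∫ x, Gs g x ∂ν ≤ val g (s * a + t * b) := by
    intro μ hμ ν hν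
    have := hμ.prob
    have := hν.prob
    refine le_trans (le_of_eq ?_) (le_val g (isStrategy_mix hμ hν hs ht hst))
    rw [integral_add_measure ((Gs_integrable g μ).smul_measure ENNReal.ofReal_ne_top)
      ((Gs_integrable g ν).smul_measure ENNReal.ofReal_ne_top), integral_smul_measure,
      integral_smul_measure, ENNReal.toReal_ofReal hs, ENNReal.toReal_ofReal ht]
    simp
  rcases hs.eq_or_lt with hs0 | hs0
  · have : t = 1 := by linarith
    subst this; subst hs0; simp
  rcases ht.eq_or_lt with ht0 | ht0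
  · have : s = 1 := by linarith
    subst this; subst ht0; simp
  have h1 : ∀ ν, IsStrategy b ν → t * ∫ x, Gs g x ∂ν ≤ val g (s * a + t * b) - s * val g a := by
    intro ν hν
    have : val g a ≤ (val g (s * a + t * b) - t * ∫ x, Gs g x ∂ν) / s := by
      refine val_le g ha' fun μ hμ => ?_
      rw [le_div_iff₀ hs0]
      have := key μ hμ ν hν
      linarith
    rw [le_div_iff₀ hs0] at this
    linarith
  have h2 : val g b ≤ (val g (s * a + t * b) - s * val g a) / t := by
    refine val_le g hb' fun ν hν => ?_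
    rw [le_div_iff₀ ht0]
    have := h1 ν hν
    linarith
  rw [le_div_iff₀ ht0] at h2
  linarith

end value

/-- supporting line of a concave function on `[0,∞)` at an interior point -/
lemma exists_support {V : ℝ → ℝ} (hV : ConcaveOn ℝ (Ici 0) V) {b : ℝ} (hb : 0 < b) :
    ∃ c : ℝ, ∀ x, 0 ≤ x → V x ≤ V b + c * (x - b) := by
  have hW : ConvexOn ℝ (Ici 0) (-V) := hV.neg
  have hbi : b ∈ interior (Ici (0:ℝ)) := by simpa using hb
  refine ⟨-(derivWithin (-V) (Ioi b) b), fun x hx => ?_⟩
  rcases lt_trichotomy x b with h | h | h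
  · have h1 := hW.slope_le_leftDeriv_of_mem_interior (x := x) (y := b) hx hbi h
    have h2 := hW.leftDeriv_le_rightDeriv_of_mem_interior hbi
    have h3 := h1.trans h2
    rw [slope_def_field, div_le_iff₀ (by linarith)] at h3
    simp only [Pi.neg_apply] at h3
    nlinarith
  · subst h; simp
  · have h1 := hW.rightDeriv_le_slope_of_mem_interior (x := b) (y := x) hbi hx h
    rw [slope_def_field, le_div_iff₀ (by linarith)] at h1
    simp only [Pi.neg_apply] at h1
    nlinarith

lemma IsStrategy.ae_nonneg {b : ℝ} {μ : Measure ℝ} (h : IsStrategy b μ) : ∀ᵐ x ∂μ, 0 ≤ x := by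
  rw [ae_iff]
  refine measure_mono_null (fun x hx => ?_) h.nonneg
  simpa using hx

lemma IsStrategy.budget_nonneg {b : ℝ} {μ : Measure ℝ} (h : IsStrategy b μ) : 0 ≤ b := by
  rw [← h.mean]
  exact integral_nonneg_of_ae h.ae_nonneg

lemma IsStrategy.integrable_line {b : ℝ} {μ : Measure ℝ} (h : IsStrategy b μ) (v c d : ℝ) :
    Integrable (fun x => v + c * (x - d)) μ := by
  have := h.prob
  exact (integrable_const v).add ((h.integrable.sub (integrable_const d)).const_mul c)

lemma IsStrategy.integral_line {b : ℝ} {μ : Measure ℝ} (h : IsStrategy b μ) (v c d : ℝ) :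
    ∫ x, (v + c * (x - d)) ∂μ = v + c * (b - d) := by
  have := h.prob
  have h1 : Integrable (fun x : ℝ => x - d) μ := h.integrable.sub (integrable_const d)
  have h2 : Integrable (fun x : ℝ => c * (x - d)) μ := h1.const_mul c
  rw [integral_add (integrable_const v) h2, integral_const_mul,
    integral_sub h.integrable (integrable_const d), h.mean]
  simp

section equilibrium

variable {P : Type*} [MeasurableSpace P] {π : Measure P} [IsProbabilityMeasure π] {b : P → ℝ}
  {f : P → Measure ℝ}

lemma bind_prob (hf : Measurable f) (hN : IsNash π b f) : IsProbabilityMeasure (π.bind f) := by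
  refine ⟨?_⟩
  rw [Measure.bind_apply MeasurableSet.univ hf.aemeasurable]
  have : ∀ᵐ i ∂π, f i univ = 1 := by
    filter_upwards [hN.feasible] with i hi
    exact hi.prob.measure_univ
  rw [lintegral_congr_ae this]
  simp

lemma meas_app (hf : Measurable f) {s : Set ℝ} (hs : MeasurableSet s) :
    AEMeasurable (fun i => f i s) π :=
  ((Measure.measurable_coe hs).comp hf).aemeasurable

lemma ae_ae_of_bind (hf : Measurable f) {p : ℝ → Prop} (h : ∀ᵐ x ∂(π.bind f), p x) :
    ∀ᵐ i ∂π, ∀ᵐ x ∂(f i), p x :=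
  Measure.ae_ae_of_ae_comp (κ := ⟨f, hf⟩) h

lemma ae_bind_of_ae (hf : Measurable f) {p : ℝ → Prop} (hp : MeasurableSet {z | p z})
    (h : ∀ᵐ i ∂π, ∀ᵐ x ∂(f i), p x) : ∀ᵐ x ∂(π.bind f), p x :=
  Measure.ae_comp_of_ae_ae (κ := ⟨f, hf⟩) hp h

lemma integral_bind_bdd (hf : Measurable f) (hN : IsNash π b f) {h : ℝ → ℝ} (hm : Measurable h)
    (h0 : ∀ x, 0 ≤ h x) (h1 : ∀ x, h x ≤ 1) :
    ∫ x, h x ∂(π.bind f) = ∫ i, (∫ x, h x ∂(f i)) ∂π := by
  have hmE : Measurable (fun x => ENNReal.ofReal (h x)) := hm.ennreal_ofReal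
  rw [integral_eq_lintegral_of_nonneg_ae (ae_of_all _ h0) hm.aestronglyMeasurable,
    Measure.lintegral_bind hf.aemeasurable hmE.aemeasurable]
  have hle : ∀ᵐ i ∂π, (∫⁻ x, ENNReal.ofReal (h x) ∂(f i)) < ⊤ := by
    filter_upwards [hN.feasible] with i hi
    have := hi.prob
    calc (∫⁻ x, ENNReal.ofReal (h x) ∂(f i)) ≤ ∫⁻ _, 1 ∂(f i) :=
          lintegral_mono fun x => by simpa using h1 x
      _ < ⊤ := by simp
  have hAE : AEMeasurable (fun i => ∫⁻ x, ENNReal.ofReal (h x) ∂(f i)) π :=
    (hmE.lintegral_kernel (κ := ⟨f, hf⟩)).aemeasurable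
  rw [← integral_toReal hAE hle]
  refine integral_congr_ae (ae_of_all _ fun i => ?_)
  simp only
  rw [integral_eq_lintegral_of_nonneg_ae (ae_of_all _ h0) hm.aestronglyMeasurable]

variable (hf : Measurable f) (hN : IsNash π b f) (hpos : ∀ᵐ i ∂π, 0 < b i)

include hf hN

lemma nash_val :
    ∀ᵐ i ∂π, ∫ x, Gs (π.bind f) x ∂(f i) = val (π.bind f) (b i) := by
  have := bind_prob hf hN
  filter_upwards [hN.feasible, hN.optimal] with i h1 h2
  have hp := h1.prob
  have hb : 0 ≤ b i := h1.budget_nonneg
  refine le_antisymm (le_val _ h1) (val_le _ hb fun μ hμ => ?_)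
  have hμp := hμ.prob
  have h3 := h2 μ hμ
  rwa [payoff_eq, payoff_eq] at h3

include hpos

lemma nash_contact :
    ∀ᵐ i ∂π, ∃ c : ℝ, (∀ x, 0 ≤ x → val (π.bind f) x ≤ val (π.bind f) (b i) + c * (x - b i)) ∧
      ∀ᵐ x ∂(f i), Gs (π.bind f) x = val (π.bind f) (b i) + c * (x - b i) := by
  have := bind_prob hf hN
  set g := π.bind f with hg
  filter_upwards [hN.feasible, nash_val hf hN, hpos] with i h1 h2 h3
  obtain ⟨c, hc⟩ := exists_support (val_concave g) h3
  refine ⟨c, hc, ?_⟩
  have hp := h1.prob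
  have hnn : ∀ᵐ x ∂(f i), 0 ≤ x := h1.ae_nonneg
  have hI : Integrable (fun x => val g (b i) + c * (x - b i)) (f i) := h1.integrable_line _ _ _
  have hD : Integrable (fun x => (val g (b i) + c * (x - b i)) - Gs g x) (f i) :=
    hI.sub (Gs_integrable g _)
  have hint : ∫ x, ((val g (b i) + c * (x - b i)) - Gs g x) ∂(f i) = 0 := by
    rw [integral_sub hI (Gs_integrable g _), h2, h1.integral_line]
    simp [hg]
  have h0 : 0 ≤ᵐ[f i] fun x => (val g (b i) + c * (x - b i)) - Gs g x := by
    filter_upwards [hnn] with x hx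
    have := hc x hx
    have h5 := Gs_le_val g hx
    simp only [Pi.zero_apply]
    linarith
  rw [integral_eq_zero_iff_of_nonneg_ae h0 hD] at hint
  filter_upwards [hint] with x hx
  simp only [Pi.zero_apply] at hx
  linarith

lemma nash_noatom (x₀ : ℝ) : (π.bind f) {x₀} = 0 := by
  have := bind_prob hf hN
  by_contra hne
  have hbind : (π.bind f) {x₀} = ∫⁻ i, f i {x₀} ∂π :=
    Measure.bind_apply (measurableSet_singleton _) hf.aemeasurable
  have hex : ∃ᵐ i ∂π, f i {x₀} ≠ 0 := by
    intro hcon
    apply hne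
    rw [hbind, lintegral_eq_zero_iff' (meas_app hf (measurableSet_singleton _))]
    filter_upwards [hcon] with i hi
    simpa using hi
  obtain ⟨i, hi, h1, c, hc, hcx⟩ :=
    (hex.and_eventually (hN.feasible.and (nash_contact hf hN hpos))).exists
  set g := π.bind f with hg
  have hx0 : 0 ≤ x₀ := by
    by_contra hlt
    exact hi (measure_mono_null (by simpa using hlt) h1.nonneg)
  have heq : Gs g x₀ = val g (b i) + c * (x₀ - b i) := by
    by_contra hcon
    refine hi (measure_mono_null (t := {x | ¬ (Gs g x = val g (b i) + c * (x - b i))}) ?_ hcx)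
    simpa using hcon
  set a := g.real {x₀} with ha
  have hapos : 0 < a := by
    rw [ha, measureReal_def]
    exact ENNReal.toReal_pos hne (measure_ne_top _ _)
  set δ := a / (4 * (|c| + 1)) with hδ
  have hc1 : 0 < |c| + 1 := by positivity
  have hδpos : 0 < δ := by positivity
  have h4 : g.real (Iic x₀) ≤ Gs g (x₀ + δ) := Iic_le_Gs g (by linarith)
  have h5 : Gs g (x₀ + δ) ≤ val g (x₀ + δ) := Gs_le_val g (by linarith)
  have h6 := hc (x₀ + δ) (by linarith)
  have h7 : g.real (Iic x₀) = Gs g x₀ + a / 2 := by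
    rw [Iic_eq]; unfold Gs; ring
  have h8 : c * δ ≤ a / 4 := by
    have : c * δ ≤ |c| * δ := mul_le_mul_of_nonneg_right (le_abs_self c) hδpos.le
    have h9 : |c| * δ ≤ (|c| + 1) * δ := mul_le_mul_of_nonneg_right (by linarith) hδpos.le
    have h10 : (|c| + 1) * δ = a / 4 := by rw [hδ]; field_simp
    linarith
  nlinarith

lemma Gs_eq_cdf (x : ℝ) : Gs (π.bind f) x = (π.bind f).real (Iic x) := by
  have := bind_prob hf hN
  rw [Iic_eq]
  unfold Gs
  have : (π.bind f).real {x} = 0 := by
    rw [measureReal_def, nash_noatom hf hN hpos x]; simp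
  rw [this]; ring

lemma cdf_cont : Continuous (fun x => (π.bind f).real (Iic x)) := by
  have := bind_prob hf hN
  have h1 : (fun x => (π.bind f).real (Iic x)) = cdf (π.bind f) := by
    funext x; rw [cdf_eq_real]
  rw [h1, continuous_iff_continuousAt]
  intro x
  rw [(monotone_cdf _).continuousAt_iff_leftLim_eq_rightLim, StieltjesFunction.rightLim_eq]
  have h2 := (cdf (π.bind f)).measure_singleton x
  rw [measure_cdf, nash_noatom hf hN hpos x] at h2
  have h3 := ENNReal.ofReal_eq_zero.1 h2.symm
  have h4 := (monotone_cdf (π.bind f)).leftLim_le (le_refl x)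
  linarith

lemma nash_nonneg : (π.bind f) (Iio 0) = 0 := by
  rw [Measure.bind_apply measurableSet_Iio hf.aemeasurable]
  rw [lintegral_eq_zero_iff' (meas_app hf measurableSet_Iio)]
  filter_upwards [hN.feasible] with i hi
  exact hi.nonneg

lemma cdf_zero {x : ℝ} (hx : x ≤ 0) : (π.bind f).real (Iic x) = 0 := by
  have := bind_prob hf hN
  have h : (π.bind f) (Iic (0:ℝ)) = 0 := by
    rw [← Iio_union_right, measure_union_null (nash_nonneg hf hN hpos) (nash_noatom hf hN hpos 0)]
  rw [measureReal_def, measure_mono_null (Iic_subset_Iic.2 hx) h]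
  simp

/-- the equilibrium distribution function is its own best-reply value -/
lemma val_eq_cdf {x₀ : ℝ} (hx₀ : 0 ≤ x₀) : val (π.bind f) x₀ = (π.bind f).real (Iic x₀) := by
  have := bind_prob hf hN
  set g := π.bind f with hg
  have hGs : ∀ x, Gs g x = g.real (Iic x) := Gs_eq_cdf hf hN hpos
  refine le_antisymm ?_ (by rw [← hGs]; exact Gs_le_val g hx₀)
  rcases (Iic_le_one g x₀).eq_or_lt with h1 | h1
  · rw [h1]; exact val_le_one g hx₀
  -- contact holds g-a.e.
  have hcont : ∀ᵐ x ∂g, 0 ≤ x → val g x ≤ Gs g x := by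
    have hmeas : MeasurableSet {x : ℝ | 0 ≤ x → val g x ≤ Gs g x} := by
      have : {x : ℝ | 0 ≤ x → val g x ≤ Gs g x} = Iio 0 ∪ {x | val g (max x 0) ≤ Gs g x} ∩ Ici 0 := by
        ext x
        simp only [mem_ofPred_eq, mem_union, mem_Iio, mem_inter_iff, mem_Ici]
        constructor
        · intro h
          rcases lt_or_ge x 0 with h0 | h0
          · exact Or.inl h0
          · right; rw [max_eq_left h0]; exact ⟨h h0, h0⟩
        · rintro (h | ⟨h, h0⟩) h2
          · exact absurd h2 (not_le.2 h)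
          · rwa [max_eq_left h0] at h
      rw [this]
      refine measurableSet_Iio.union (MeasurableSet.inter ?_ measurableSet_Ici)
      refine measurableSet_le (Monotone.measurable ?_) (Gs_meas g)
      intro x y hxy
      exact val_mono g (le_max_right _ _) (max_le_max hxy le_rfl)
    refine ae_bind_of_ae hf hmeas ?_
    filter_upwards [nash_contact hf hN hpos] with i ⟨c, hc, hcx⟩
    filter_upwards [hcx] with x hx h0
    rw [hx]; exact hc x h0
  refine le_of_forall_pos_le_add fun ε hε => ?_
  set G := fun x => g.real (Iic x) with hG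
  have hGc : Continuous G := cdf_cont hf hN hpos
  set e := min (ε / 2) ((1 - G x₀) / 2) with he
  have hepos : 0 < e := lt_min (by linarith) (by simp only [hG]; linarith)
  have hlim : Tendsto G atTop (𝓝 1) := by
    have := tendsto_cdf_atTop g
    refine this.congr fun x => ?_
    rw [cdf_eq_real]
  have hlt1 : G x₀ + e < 1 := by
    have : e ≤ (1 - G x₀) / 2 := min_le_right _ _
    have h2 : G x₀ < 1 := h1
    linarith
  obtain ⟨Y, hY⟩ := (hlim.eventually (lt_mem_nhds hlt1)).exists
  obtain ⟨z, hz⟩ := mem_range_of_exists_le_of_exists_ge hGc ⟨x₀, by linarith⟩ ⟨Y, hY.le⟩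
  have hmono : Monotone G := fun x y hxy => measureReal_mono (Iic_subset_Iic.2 hxy)
  have hx0z : x₀ < z := by
    by_contra hcon
    have := hmono (not_lt.1 hcon)
    linarith
  have hmass : g (Ioc x₀ z) ≠ 0 := by
    intro h0
    have h2 : g.real (Iic z) = g.real (Iic x₀) + g.real (Ioc x₀ z) := by
      rw [← measureReal_union (by
        rw [Set.disjoint_left]; intro x hx hx2; exact absurd hx2.1 (not_lt.2 hx)) measurableSet_Ioc,
        Iic_union_Ioc_eq_Iic hx0z.le]
    rw [measureReal_def g (Ioc x₀ z), h0] at h2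
    simp only [ENNReal.toReal_zero, add_zero] at h2
    have h3 : G z = G x₀ := h2
    linarith
  obtain ⟨y, hy, hy2⟩ : ∃ y ∈ Ioc x₀ z, 0 ≤ y → val g y ≤ Gs g y := by
    by_contra hcon
    push Not at hcon
    apply hmass
    refine measure_mono_null ?_ (ae_iff.1 hcont)
    intro y hy
    have := hcon y hy
    simp only [mem_ofPred_eq, Classical.not_imp, not_le]
    exact this
  have hy0 : 0 ≤ y := hx₀.trans hy.1.le
  calc val g x₀ ≤ val g y := val_mono g hx₀ hy.1.le
    _ ≤ Gs g y := hy2 hy0
    _ = G y := hGs y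
    _ ≤ G z := hmono hy.2
    _ = G x₀ + e := hz
    _ ≤ g.real (Iic x₀) + ε := by
      have : e ≤ ε / 2 := min_le_left _ _
      simp only [hG]; linarith

lemma cdf_concave : ConcaveOn ℝ (Ici 0) (fun x => (π.bind f).real (Iic x)) := by
  have := bind_prob hf hN
  refine (val_concave (π.bind f)).congr ?_
  intro x hx
  exact val_eq_cdf hf hN hpos hx

lemma nash_payoff : ∀ᵐ i ∂π, ∫ x, (π.bind f).real (Iic x) ∂(f i) = (π.bind f).real (Iic (b i)) := by
  filter_upwards [nash_val hf hN, hpos] with i h1 h2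
  rw [val_eq_cdf hf hN hpos h2.le] at h1
  rw [← h1]
  refine integral_congr_ae (ae_of_all _ fun x => ?_)
  exact (Gs_eq_cdf hf hN hpos x).symm

end equilibrium

section jensen

variable {G : ℝ → ℝ}

/-- Jensen's inequality for a strategy, through a supporting line, with the equality case. -/
lemma jensen_line (hG : ConcaveOn ℝ (Ici 0) G) {b : ℝ} (hb : 0 < b) {μ : Measure ℝ}
    (hμ : IsStrategy b μ) (hI : Integrable G μ) :
    ∫ x, G x ∂μ ≤ G b ∧ (∫ x, G x ∂μ = G b → ∃ c : ℝ, (∀ x, 0 ≤ x → G x ≤ G b + c * (x - b)) ∧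
      ∀ᵐ x ∂μ, G x = G b + c * (x - b)) := by
  obtain ⟨c, hc⟩ := exists_support hG hb
  have hD : Integrable (fun x => (G b + c * (x - b)) - G x) μ :=
    (hμ.integrable_line _ _ _).sub hI
  have hint : ∫ x, ((G b + c * (x - b)) - G x) ∂μ = G b - ∫ x, G x ∂μ := by
    rw [integral_sub (hμ.integrable_line _ _ _) hI, hμ.integral_line]
    simp
  have h0 : 0 ≤ᵐ[μ] fun x => (G b + c * (x - b)) - G x := by
    filter_upwards [hμ.ae_nonneg] with x hx
    have := hc x hx
    simp only [Pi.zero_apply]
    linarith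
  have h1 := integral_nonneg_of_ae h0
  rw [hint] at h1
  refine ⟨by linarith, fun heq => ⟨c, hc, ?_⟩⟩
  rw [heq, sub_self] at hint
  rw [integral_eq_zero_iff_of_nonneg_ae h0 hD] at hint
  filter_upwards [hint] with x hx
  simp only [Pi.zero_apply] at hx
  linarith

lemma mean_ge {b x₀ : ℝ} {μ : Measure ℝ} (hμ : IsStrategy b μ) (h : μ (Iio x₀) = 0) : x₀ ≤ b := by
  have hp := hμ.prob
  have h1 : ∀ᵐ x ∂μ, x₀ ≤ x := by
    rw [ae_iff]
    refine measure_mono_null (fun x hx => ?_) h
    simpa using hx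
  have : ∫ _, x₀ ∂μ ≤ ∫ x, x ∂μ := integral_mono_ae (integrable_const _) hμ.integrable h1
  simpa [hμ.mean] using this

lemma mean_lt {b x₀ : ℝ} {μ : Measure ℝ} (hμ : IsStrategy b μ) (h : μ (Ioi x₀) = 0)
    (h' : μ (Iio x₀) ≠ 0) : b < x₀ := by
  have hp := hμ.prob
  have h1 : 0 ≤ᵐ[μ] fun x => x₀ - x := by
    have : ∀ᵐ x ∂μ, x ≤ x₀ := by
      rw [ae_iff]
      refine measure_mono_null (fun x hx => ?_) h
      simpa using hx
    filter_upwards [this] with x hx
    simpa using hx
  have hI : Integrable (fun x => x₀ - x) μ := (integrable_const _).sub hμ.integrable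
  have h2 : 0 < ∫ x, (x₀ - x) ∂μ := by
    rw [integral_pos_iff_support_of_nonneg_ae h1 hI]
    refine lt_of_lt_of_le (pos_iff_ne_zero.2 h') (measure_mono fun x hx => ?_)
    simp only [Function.mem_support, ne_eq]
    have : x < x₀ := hx
    intro h3
    linarith
  rw [integral_sub (integrable_const _) hμ.integrable, hμ.mean] at h2
  simpa using h2

/-- no strategy that is a best reply to two concave distribution functions straddles the first
maximum point of their difference -/
lemma no_straddle {G₁ G₂ : ℝ → ℝ} (hG₁ : ConcaveOn ℝ (Ici 0) G₁) (hG₂ : ConcaveOn ℝ (Ici 0) G₂)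
    {b : ℝ} (hb : 0 < b) {μ : Measure ℝ} (hμ : IsStrategy b μ)
    (hI₁ : Integrable G₁ μ) (hI₂ : Integrable G₂ μ)
    (he₁ : ∫ x, G₁ x ∂μ = G₁ b) (he₂ : ∫ x, G₂ x ∂μ = G₂ b) {x₀ : ℝ} (hx₀ : 0 ≤ x₀)
    (hmax : ∀ y, G₁ y - G₂ y ≤ G₁ x₀ - G₂ x₀) (hfirst : ∀ y, y < x₀ → G₁ y - G₂ y < G₁ x₀ - G₂ x₀) :
    μ (Iio x₀) = 0 ∨ μ (Ioi x₀) = 0 := by
  by_contra hcon
  push Not at hcon
  obtain ⟨hl, hr⟩ := hcon
  obtain ⟨c₁, hc₁, ha₁⟩ := (jensen_line hG₁ hb hμ hI₁).2 he₁
  obtain ⟨c₂, hc₂, ha₂⟩ := (jensen_line hG₂ hb hμ hI₂).2 he₂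
  have hall : ∀ᵐ x ∂μ, 0 ≤ x ∧ G₁ x = G₁ b + c₁ * (x - b) ∧ G₂ x = G₂ b + c₂ * (x - b) := by
    filter_upwards [hμ.ae_nonneg, ha₁, ha₂] with x h1 h2 h3 using ⟨h1, h2, h3⟩
  have hex : ∀ s : Set ℝ, μ s ≠ 0 → ∃ x ∈ s, 0 ≤ x ∧ G₁ x = G₁ b + c₁ * (x - b) ∧
      G₂ x = G₂ b + c₂ * (x - b) := by
    intro s hs
    by_contra hcon
    push Not at hcon
    apply hs
    refine measure_mono_null (fun x hx => ?_) (ae_iff.1 hall)
    simp only [mem_ofPred_eq]
    rintro ⟨h1, h2, h3⟩
    exact hcon x hx h1 h2 h3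
  obtain ⟨p, hp, hp0, hp1, hp2⟩ := hex _ hl
  obtain ⟨q, hq, hq0, hq1, hq2⟩ := hex _ hr
  have hpx : p < x₀ := hp
  have hqx : x₀ < q := hq
  -- value at x₀ is on both lines
  have hseg : ∀ {G : ℝ → ℝ} {c : ℝ}, ConcaveOn ℝ (Ici 0) G →
      (∀ x, 0 ≤ x → G x ≤ G b + c * (x - b)) → G p = G b + c * (p - b) → G q = G b + c * (q - b) →
      G x₀ = G b + c * (x₀ - b) := by
    intro G c hG hc h1 h2
    refine le_antisymm (hc x₀ hx₀) ?_
    have hqp : 0 < q - p := by linarith
    have h3 := hG.2 (show p ∈ Ici (0:ℝ) from hp0) (show q ∈ Ici (0:ℝ) from hq0)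
      (show 0 ≤ (q - x₀) / (q - p) from div_nonneg (by linarith) hqp.le)
      (show 0 ≤ (x₀ - p) / (q - p) from div_nonneg (by linarith) hqp.le)
      (by field_simp; ring)
    simp only [smul_eq_mul] at h3
    have h4 : (q - x₀) / (q - p) * p + (x₀ - p) / (q - p) * q = x₀ := by
      field_simp; ring
    rw [h4, h1, h2] at h3
    refine le_trans (le_of_eq ?_) h3
    field_simp
    ring
  have e1 := hseg hG₁ hc₁ hp1 hq1
  have e2 := hseg hG₂ hc₂ hp2 hq2
  have m1 := hfirst p hpx
  have m2 := hmax q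
  rw [hp1, hp2, e1, e2] at m1
  rw [hq1, hq2, e1, e2] at m2
  -- (c₁ - c₂) (p - x₀) < 0 and (c₁ - c₂) (q - x₀) ≤ 0
  have k1 : 0 < (c₁ - c₂) * (x₀ - p) := by nlinarith
  have k2 : (c₁ - c₂) * (q - x₀) ≤ 0 := by nlinarith
  have k3 : 0 < c₁ - c₂ := by
    by_contra hneg
    have := mul_nonneg (neg_nonneg.2 (not_lt.1 hneg)) (show 0 ≤ x₀ - p by linarith)
    nlinarith
  have k4 : 0 < (c₁ - c₂) * (q - x₀) := mul_pos k3 (by linarith)
  linarith

end jensen

section main

lemma cdf_sum {g₁ g₂ : Measure ℝ} [IsProbabilityMeasure g₁] [IsProbabilityMeasure g₂]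
    (h₂ : ∀ x, g₂ {x} = 0) :
    ∫ x, g₁.real (Iic x) ∂g₂ + ∫ x, g₂.real (Iic x) ∂g₁ = 1 := by
  have m1 : MeasurableSet {p : ℝ × ℝ | p.2 ≤ p.1} := measurableSet_le measurable_snd measurable_fst
  have m2 : MeasurableSet {p : ℝ × ℝ | p.2 < p.1} := measurableSet_lt measurable_snd measurable_fst
  have e1 : (g₂.prod g₁).real {p | p.2 ≤ p.1} = ∫ x, g₁.real (Iic x) ∂g₂ := by
    rw [measureReal_def, Measure.prod_apply m1, ← integral_toReal]
    · rfl
    · exact (measurable_measure_prodMk_left m1).aemeasurable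
    · exact ae_of_all _ fun x => measure_lt_top _ _
  have e2 : (g₁.prod g₂).real {p | p.2 < p.1} = ∫ x, g₂.real (Iic x) ∂g₁ := by
    rw [measureReal_def, Measure.prod_apply m2, ← integral_toReal]
    · refine integral_congr_ae (ae_of_all _ fun x => ?_)
      simp only
      rw [Iic_eq, measureReal_def g₂ {x}, h₂ x]
      simp only [ENNReal.toReal_zero, add_zero]
      rfl
    · exact (measurable_measure_prodMk_left m2).aemeasurable
    · exact ae_of_all _ fun x => measure_lt_top _ _
  have e3 : (g₁.prod g₂).real {p | p.2 < p.1} = (g₂.prod g₁).real {p | p.2 ≤ p.1}ᶜ := by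
    rw [← Measure.prod_swap, map_measureReal_apply measurable_swap m2]
    congr 1
    ext p
    simp
  rw [← e1, ← e2, e3, measureReal_compl m1]
  simp

variable {P Q : Type*} [MeasurableSpace P] [MeasurableSpace Q] {B : Measure ℝ}
  {π : Measure P} [IsProbabilityMeasure π] {b : P → ℝ} {f : P → Measure ℝ}
  {ρ : Measure Q} [IsProbabilityMeasure ρ] {d : Q → ℝ} {h : Q → Measure ℝ}

lemma G_meas (g : Measure ℝ) [IsProbabilityMeasure g] : Measurable (fun x => g.real (Iic x)) :=
  Monotone.measurable fun _ _ hxy => measureReal_mono (Iic_subset_Iic.2 hxy)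

lemma G_int (g : Measure ℝ) [IsProbabilityMeasure g] (μ : Measure ℝ) [IsFiniteMeasure μ] :
    Integrable (fun x => g.real (Iic x)) μ := by
  refine Integrable.of_bound (G_meas g).aestronglyMeasurable 1 (ae_of_all _ fun x => ?_)
  rw [Real.norm_eq_abs, abs_of_nonneg measureReal_nonneg]
  exact measureReal_le_one

lemma G_int' (g : Measure ℝ) [IsProbabilityMeasure g] {b : P → ℝ} (hb : Measurable b) :
    Integrable (fun i => g.real (Iic (b i))) π := by
  refine Integrable.of_bound ((G_meas g).comp hb).aestronglyMeasurable 1 (ae_of_all _ fun x => ?_)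
  rw [Real.norm_eq_abs, abs_of_nonneg measureReal_nonneg]
  exact measureReal_le_one

lemma G_int_bind (g : Measure ℝ) [IsProbabilityMeasure g] (hf : Measurable f) (hN : IsNash π b f) :
    Integrable (fun i => ∫ x, g.real (Iic x) ∂(f i)) π := by
  have hm : Measurable (fun i => ∫ x, g.real (Iic x) ∂(f i)) := by
    have h1 : (fun i => ∫ x, g.real (Iic x) ∂(f i)) =
        fun i => (∫⁻ x, ENNReal.ofReal (g.real (Iic x)) ∂(f i)).toReal := by
      funext i
      rw [integral_eq_lintegral_of_nonneg_ae (ae_of_all _ fun x => measureReal_nonneg)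
        (G_meas g).aestronglyMeasurable]
    rw [h1]
    exact ((G_meas g).ennreal_ofReal.lintegral_kernel (κ := ⟨f, hf⟩)).ennreal_toReal
  refine Integrable.of_bound hm.aestronglyMeasurable 1 ?_
  filter_upwards [hN.feasible] with i hi
  have hp := hi.prob
  rw [Real.norm_eq_abs, abs_of_nonneg (integral_nonneg fun x => measureReal_nonneg)]
  calc ∫ x, g.real (Iic x) ∂(f i) ≤ ∫ _, (1:ℝ) ∂(f i) :=
        integral_mono (G_int g _) (integrable_const _) fun x => measureReal_le_one
    _ = 1 := by simp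

/-- the average payoff of any feasible profile against an equilibrium aggregate is at most the
equilibrium average -/
lemma cross_le (hb : Measurable b) (hf : Measurable f) (hN : IsNash π b f)
    (hpos : ∀ᵐ i ∂π, 0 < b i)
    (hd : Measurable d) (hh : Measurable h) (hM : IsNash ρ d h) (hpos' : ∀ᵐ i ∂ρ, 0 < d i)
    (hlaw : π.map b = ρ.map d) :
    (∫ j, ((π.bind f).real (Iic (d j)) - ∫ x, (π.bind f).real (Iic x) ∂(h j)) ∂ρ =
      1 / 2 - ∫ x, (π.bind f).real (Iic x) ∂(ρ.bind h)) ∧
    (∀ᵐ j ∂ρ, 0 ≤ (π.bind f).real (Iic (d j)) - ∫ x, (π.bind f).real (Iic x) ∂(h j)) := by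
  have hg := bind_prob hf hN
  set g := π.bind f with hgdef
  have hG0 : ∀ x, 0 ≤ g.real (Iic x) := fun x => measureReal_nonneg
  have hG1 : ∀ x, g.real (Iic x) ≤ 1 := fun x => measureReal_le_one
  constructor
  · rw [integral_sub (G_int' g hd) (G_int_bind g hh hM)]
    rw [← integral_bind_bdd hh hM (G_meas g) hG0 hG1]
    congr 1
    have e1 : ∫ j, g.real (Iic (d j)) ∂ρ = ∫ x, g.real (Iic x) ∂(ρ.map d) := by
      rw [integral_map hd.aemeasurable (G_meas g).aestronglyMeasurable]
    have e2 : ∫ i, g.real (Iic (b i)) ∂π = ∫ x, g.real (Iic x) ∂(π.map b) := by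
      rw [integral_map hb.aemeasurable (G_meas g).aestronglyMeasurable]
    have e3 : ∫ i, g.real (Iic (b i)) ∂π = ∫ x, g.real (Iic x) ∂g := by
      rw [hgdef, integral_bind_bdd hf hN (G_meas g) hG0 hG1]
      refine integral_congr_ae ?_
      filter_upwards [nash_payoff hf hN hpos] with i hi
      exact hi.symm
    have e4 := cdf_sum (g₁ := g) (g₂ := g) (nash_noatom hf hN hpos)
    rw [e1, ← hlaw, ← e2, e3]
    linarith
  · filter_upwards [hM.feasible, hpos'] with j h1 h2
    have hp := h1.prob
    have := (jensen_line (cdf_concave hf hN hpos) h2 h1 (G_int g _)).1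
    linarith

/-- exchange: equilibrium strategies of either equilibrium are best replies to both aggregates -/
lemma exchange (hb : Measurable b) (hf : Measurable f) (hN : IsNash π b f)
    (hpos : ∀ᵐ i ∂π, 0 < b i)
    (hd : Measurable d) (hh : Measurable h) (hM : IsNash ρ d h) (hpos' : ∀ᵐ i ∂ρ, 0 < d i)
    (hlaw : π.map b = ρ.map d) :
    ∀ᵐ j ∂ρ, ∫ x, (π.bind f).real (Iic x) ∂(h j) = (π.bind f).real (Iic (d j)) := by
  have hg := bind_prob hf hN
  have hk := bind_prob hh hM
  obtain ⟨e1, n1⟩ := cross_le hb hf hN hpos hd hh hM hpos' hlaw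
  obtain ⟨e2, n2⟩ := cross_le hd hh hM hpos' hb hf hN hpos hlaw.symm
  have i1 := integral_nonneg_of_ae n1
  have i2 := integral_nonneg_of_ae n2
  have e3 := cdf_sum (g₁ := π.bind f) (g₂ := ρ.bind h) (nash_noatom hh hM hpos')
  have e4 : ∫ j, ((π.bind f).real (Iic (d j)) - ∫ x, (π.bind f).real (Iic x) ∂(h j)) ∂ρ = 0 := by
    linarith
  rw [integral_eq_zero_iff_of_nonneg_ae n1 ((G_int' _ hd).sub (G_int_bind _ hh hM))] at e4
  filter_upwards [e4] with j hj
  simp only [Pi.zero_apply] at hj
  linarith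

/-- mass below a point that no strategy straddles -/
lemma mass_below (hb : Measurable b) (hf : Measurable f) (hN : IsNash π b f)
    (hpos : ∀ᵐ i ∂π, 0 < b i) {x₀ : ℝ}
    (hs : ∀ᵐ i ∂π, f i (Iio x₀) = 0 ∨ f i (Ioi x₀) = 0) :
    (π.bind f) (Iic x₀) = (π.map b) (Iio x₀) := by
  have hatom : ∀ᵐ i ∂π, f i {x₀} = 0 := by
    have h1 := nash_noatom hf hN hpos x₀
    rw [Measure.bind_apply (measurableSet_singleton _) hf.aemeasurable,
      lintegral_eq_zero_iff' (meas_app hf (measurableSet_singleton _))] at h1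
    filter_upwards [h1] with i hi
    simpa using hi
  rw [Measure.bind_apply measurableSet_Iic hf.aemeasurable, Measure.map_apply hb measurableSet_Iio]
  have hind : ∀ᵐ i ∂π, f i (Iic x₀) = (b ⁻¹' Iio x₀).indicator 1 i := by
    filter_upwards [hN.feasible, hs, hatom] with i h1 h2 h3
    have hp := h1.prob
    have h4 : f i (Iic x₀) = f i (Iio x₀) := by
      rw [← Iio_union_right]
      refine le_antisymm ((measure_union_le _ _).trans (by rw [h3, add_zero])) (measure_mono subset_union_left)
    by_cases hlt : b i < x₀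
    · have h5 : f i (Iio x₀) ≠ 0 := fun h0 => absurd (mean_ge h1 h0) (not_le.2 hlt)
      have h6 : f i (Ioi x₀) = 0 := h2.resolve_left h5
      have h7 : f i (Iic x₀) = 1 := by
        have := prob_compl_eq_one_sub (μ := f i) (s := Ioi x₀) measurableSet_Ioi
        rw [compl_Ioi, h6] at this
        simpa using this
      rw [h7, indicator_of_mem (by simpa using hlt)]
      simp
    · have h5 : f i (Iio x₀) = 0 := by
        by_contra h0
        exact hlt (mean_lt h1 (h2.resolve_left h0) h0)
      rw [h4, h5, indicator_of_notMem (by simpa using hlt)]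
  rw [lintegral_congr_ae hind, lintegral_indicator_one (hb measurableSet_Iio)]

lemma cdf_le (hb : Measurable b) (hf : Measurable f) (hN : IsNash π b f)
    (hpos : ∀ᵐ i ∂π, 0 < b i)
    (hd : Measurable d) (hh : Measurable h) (hM : IsNash ρ d h) (hpos' : ∀ᵐ i ∂ρ, 0 < d i)
    (hlaw : π.map b = ρ.map d) (x : ℝ) :
    (π.bind f).real (Iic x) ≤ (ρ.bind h).real (Iic x) := by
  have hg := bind_prob hf hN
  have hk := bind_prob hh hM
  by_contra hcon
  push Not at hcon
  set G₁ := fun x => (π.bind f).real (Iic x) with hG₁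
  set G₂ := fun x => (ρ.bind h).real (Iic x) with hG₂
  set D := fun x => G₁ x - G₂ x with hD
  have hc₁ : Continuous G₁ := cdf_cont hf hN hpos
  have hc₂ : Continuous G₂ := cdf_cont hh hM hpos'
  have hDc : Continuous D := hc₁.sub hc₂
  have hx : 0 < D x := sub_pos.2 hcon
  have hneg : ∀ y, y ≤ 0 → D y = 0 := by
    intro y hy
    have h1 : G₁ y = 0 := cdf_zero hf hN hpos hy
    have h2 : G₂ y = 0 := cdf_zero hh hM hpos' hy
    simp only [hD, h1, h2, sub_zero]
  have hlim : Tendsto D atTop (𝓝 0) := by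
    have t1 : Tendsto G₁ atTop (𝓝 1) := (tendsto_cdf_atTop (π.bind f)).congr fun y => by
      rw [cdf_eq_real]
    have t2 : Tendsto G₂ atTop (𝓝 1) := (tendsto_cdf_atTop (ρ.bind h)).congr fun y => by
      rw [cdf_eq_real]
    have := t1.sub t2
    simpa using this
  obtain ⟨m, hm⟩ : ∃ m, ∀ y, D y ≤ D m := by
    refine hDc.exists_forall_ge' x ?_
    rw [cocompact_eq_atBot_atTop]
    refine Filter.eventually_sup.2 ⟨?_, ?_⟩
    · filter_upwards [eventually_le_atBot (0:ℝ)] with y hy
      rw [hneg y hy]; exact hx.le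
    · filter_upwards [hlim.eventually (gt_mem_nhds hx)] with y hy using le_of_lt hy
  set S := {y | D y = D m} with hS
  have hMpos : 0 < D m := hx.trans_le (hm x)
  have hScl : IsClosed S := isClosed_eq hDc continuous_const
  have hSbdd : BddBelow S := by
    refine ⟨0, fun y hy => ?_⟩
    by_contra hlt
    have h1 : D y = D m := hy
    rw [hneg y (not_le.1 hlt).le] at h1
    linarith
  have hx₀ : sInf S ∈ S := hScl.csInf_mem ⟨m, rfl⟩ hSbdd
  set x₀ := sInf S with hx₀def
  have hDx₀ : D x₀ = D m := hx₀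
  have hx₀pos : 0 ≤ x₀ := by
    by_contra hlt
    rw [hneg x₀ (not_le.1 hlt).le] at hDx₀
    linarith
  have hmax : ∀ y, G₁ y - G₂ y ≤ G₁ x₀ - G₂ x₀ := by
    intro y
    have := hm y
    rw [← hDx₀] at this
    exact this
  have hfirst : ∀ y, y < x₀ → G₁ y - G₂ y < G₁ x₀ - G₂ x₀ := by
    intro y hy
    refine lt_of_le_of_ne (hmax y) fun heq => ?_
    have : y ∈ S := by
      change D y = D m
      rw [← hDx₀]; exact heq
    exact absurd (csInf_le hSbdd this) (not_le.2 hy)
  have s1 : ∀ᵐ i ∂π, f i (Iio x₀) = 0 ∨ f i (Ioi x₀) = 0 := by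
    filter_upwards [hN.feasible, hpos, nash_payoff hf hN hpos,
      exchange hd hh hM hpos' hb hf hN hpos hlaw.symm] with i h1 h2 h3 h4
    have hp := h1.prob
    exact no_straddle (cdf_concave hf hN hpos) (cdf_concave hh hM hpos') h2 h1
      (G_int _ _) (G_int _ _) h3 h4 hx₀pos hmax hfirst
  have s2 : ∀ᵐ j ∂ρ, h j (Iio x₀) = 0 ∨ h j (Ioi x₀) = 0 := by
    filter_upwards [hM.feasible, hpos', nash_payoff hh hM hpos',
      exchange hb hf hN hpos hd hh hM hpos' hlaw] with j h1 h2 h3 h4
    have hp := h1.prob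
    exact no_straddle (cdf_concave hf hN hpos) (cdf_concave hh hM hpos') h2 h1
      (G_int _ _) (G_int _ _) h4 h3 hx₀pos hmax hfirst
  have m1 := mass_below hb hf hN hpos s1
  have m2 := mass_below hd hh hM hpos' s2
  have : D x₀ = 0 := by
    simp only [hD, hG₁, hG₂, measureReal_def]
    rw [m1, m2, hlaw, sub_self]
  linarith

end main

/-- Sanity check: equilibria exist.  With all budgets equal to `1`, everybody playing the uniform
distribution on `[0,2]` is a Nash equilibrium. -/
lemma example_nash :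
    IsNash (Measure.dirac ()) (fun _ : Unit => (1 : ℝ))
      (fun _ => (ENNReal.ofReal (1 / 2)) • (volume.restrict (Icc (0:ℝ) 2))) := by
  set u : Measure ℝ := (ENNReal.ofReal (1 / 2)) • (volume.restrict (Icc (0:ℝ) 2)) with hu
  have hprob : IsProbabilityMeasure u := by
    refine ⟨?_⟩
    rw [hu]
    simp only [Measure.smul_apply, Measure.restrict_apply MeasurableSet.univ, univ_inter,
      Real.volume_Icc, smul_eq_mul, sub_zero]
    rw [← ENNReal.ofReal_mul (by norm_num)]
    norm_num
  have hatom : ∀ x : ℝ, u {x} = 0 := by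
    intro x
    rw [hu]
    simp
  have hneg : u (Iio 0) = 0 := by
    rw [hu, Measure.smul_apply, Measure.restrict_apply measurableSet_Iio]
    have : Iio (0:ℝ) ∩ Icc 0 2 = ∅ := by
      ext x
      simp only [mem_inter_iff, mem_Iio, mem_Icc, mem_empty_iff_false, iff_false]
      intro h
      linarith [h.1, h.2.1]
    rw [this]
    simp
  have hbind : (Measure.dirac ()).bind (fun _ : Unit => u) = u := by
    rw [Measure.dirac_bind measurable_const]
  have hint : Integrable (fun x : ℝ => x) u := by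
    rw [hu]
    refine Integrable.smul_measure ?_ ENNReal.ofReal_ne_top
    exact (continuous_id.integrableOn_Icc)
  have hstrat : IsStrategy 1 u := by
    refine ⟨hprob, hneg, hint, ?_⟩
    rw [hu, integral_smul_measure, integral_Icc_eq_integral_Ioc,
      ← intervalIntegral.integral_of_le (by norm_num), integral_id,
      ENNReal.toReal_ofReal (by norm_num)]
    norm_num
  have hG : ∀ x, 0 ≤ x → u.real (Iic x) ≤ x / 2 := by
    intro x hx
    rw [measureReal_def, hu, Measure.smul_apply, Measure.restrict_apply measurableSet_Iic]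
    have h1 : volume (Iic x ∩ Icc (0:ℝ) 2) ≤ ENNReal.ofReal x := by
      calc volume (Iic x ∩ Icc (0:ℝ) 2) ≤ volume (Icc 0 x) :=
            measure_mono fun y hy => ⟨hy.2.1, hy.1⟩
        _ = ENNReal.ofReal x := by rw [Real.volume_Icc, sub_zero]
    have h2 : (ENNReal.ofReal (1 / 2)) • volume (Iic x ∩ Icc (0:ℝ) 2) ≤ ENNReal.ofReal (x / 2) := by
      calc (ENNReal.ofReal (1 / 2)) • volume (Iic x ∩ Icc (0:ℝ) 2)
            ≤ ENNReal.ofReal (1 / 2) * ENNReal.ofReal x := by
              rw [smul_eq_mul]; gcongr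
        _ = ENNReal.ofReal (x / 2) := by
              rw [← ENNReal.ofReal_mul (by norm_num)]; congr 1; ring
    exact ENNReal.toReal_le_of_le_ofReal (by positivity) h2
  refine ⟨ae_of_all _ fun _ => hstrat, ae_of_all _ fun _ μ hμ => ?_⟩
  rw [hbind]
  have hp := hμ.prob
  rw [payoff_eq, payoff_eq]
  have hGs : ∀ x, Gs u x = u.real (Iic x) := by
    intro x
    rw [Iic_eq]
    unfold Gs
    rw [measureReal_def u {x}, hatom x]
    simp
  have e1 : ∫ x, Gs u x ∂u = 1 / 2 := by
    have := cdf_sum (g₁ := u) (g₂ := u) hatom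
    simp only [hGs]
    linarith
  rw [e1]
  calc ∫ x, Gs u x ∂μ ≤ ∫ x, x / 2 ∂μ := by
        refine integral_mono_ae (Gs_integrable u μ) (hμ.integrable.div_const 2) ?_
        filter_upwards [hμ.ae_nonneg] with x hx
        rw [hGs]
        exact hG x hx
    _ = 1 / 2 := by rw [integral_div, hμ.mean]

/-- **Uniqueness of the aggregate population strategy.**  Let `B` be any budget distribution, i.e.
any Borel probability measure on `(0,∞)` (with a density, discrete, or neither).  Any two Nash
equilibria of the Population Lotto game with budget distribution `B`, possibly on different player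
spaces, have the same aggregate population strategy. -/
theorem result (B : Measure ℝ) [IsProbabilityMeasure B] (hB : B (Iic 0) = 0)
    {P Q : Type*} [MeasurableSpace P] [MeasurableSpace Q]
    (π : Measure P) [IsProbabilityMeasure π] (b : P → ℝ) (f : P → Measure ℝ)
    (hb : Measurable b) (hlaw : π.map b = B) (hf : Measurable f) (hN : IsNash π b f)
    (ρ : Measure Q) [IsProbabilityMeasure ρ] (d : Q → ℝ) (h : Q → Measure ℝ)
    (hd : Measurable d) (hlaw' : ρ.map d = B) (hh : Measurable h) (hM : IsNash ρ d h) :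
    π.bind f = ρ.bind h := by
  have hg := bind_prob hf hN
  have hk := bind_prob hh hM
  have hpos : ∀ᵐ i ∂π, 0 < b i := by
    rw [← hlaw, Measure.map_apply hb measurableSet_Iic] at hB
    rw [ae_iff]
    refine measure_mono_null (fun i hi => ?_) hB
    simpa using hi
  have hpos' : ∀ᵐ i ∂ρ, 0 < d i := by
    rw [← hlaw', Measure.map_apply hd measurableSet_Iic] at hB
    rw [ae_iff]
    refine measure_mono_null (fun i hi => ?_) hB
    simpa using hi
  have hl : π.map b = ρ.map d := by rw [hlaw, hlaw']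
  refine Measure.ext_of_Iic _ _ fun x => ?_
  have h1 := cdf_le hb hf hN hpos hd hh hM hpos' hl x
  have h2 := cdf_le hd hh hM hpos' hb hf hN hpos hl.symm x
  have h3 := le_antisymm h1 h2
  rw [measureReal_def, measureReal_def, ENNReal.toReal_eq_toReal_iff' (measure_ne_top _ _)
    (measure_ne_top _ _)] at h3
  exact h3

end Pool.Agent.Results.MP_ed16aa_pr.AggregateUnique
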